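import Pool.Agent.W936.LC.Local
import Pool.Agent.Results.MP_c2aa42_lc.SumsOfSparseFormulas

/-!
# The classes of `MP_c2aa42_lc.SumsOfSparseFormulas` are closed under substitutions of constants
-/

set_option autoImplicit false

namespace Pool.Agent.W936.LC

open MvPolynomial Pool.Agent.H530R2 Pool.Agent.W936.RO

open Pool.Agent.Results.MP_c2aa42_lc.SumsOfSparseFormulas

variable {n : ℕ}

theorem vars_sbt (x : Fin n) (a : ℂ) (f : MvPolynomial (Fin n) ℂ) {i : Fin n}
    (hi : i ∈ (sbt x a f).vars) : i ≠ x ∧ i ∈ f.vars := by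
  classical
  constructor
  · have h8 : ∀ p : MvPolynomial (Fin n) ℂ, sbt x a p ∈ supported ℂ {k : Fin n | k ≠ x} := by
      intro p
      induction p using MvPolynomial.induction_on with
      | C r => rw [sbt_C]; exact Subalgebra.algebraMap_mem _ r
      | add p q hp hq => rw [map_add]; exact Subalgebra.add_mem _ hp hq
      | mul_X p i hp =>
        rw [map_mul]
        refine Subalgebra.mul_mem _ hp ?_
        by_cases hi : i = x
        · subst hi
          rw [sbt_self]
          exact Subalgebra.algebraMap_mem _ a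
        · rw [sbt_ne _ hi]
          exact X_mem_supported.2 hi
    exact (mem_supported.1 (h8 f)) (Finset.mem_coe.2 hi)
  · have h8 : f ∈ Algebra.adjoin ℂ (X '' (f.vars : Set (Fin n)) : Set (MvPolynomial (Fin n) ℂ)) :=
      mem_supported.2 (Set.Subset.refl _)
    have h9 : ∀ p ∈ Algebra.adjoin ℂ (X '' (f.vars : Set (Fin n)) :
        Set (MvPolynomial (Fin n) ℂ)), sbt x a p ∈ supported ℂ (f.vars : Set (Fin n)) := by
      intro p hp
      induction hp using Algebra.adjoin_induction with
      | mem y hy =>
        obtain ⟨k, hk, rfl⟩ := hy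
        by_cases h : k = x
        · subst h
          rw [sbt_self]
          exact Subalgebra.algebraMap_mem _ a
        · rw [sbt_ne a h]
          exact X_mem_supported.2 hk
      | algebraMap r =>
        rw [MvPolynomial.algebraMap_eq, sbt_C]
        exact Subalgebra.algebraMap_mem _ r
      | add p q _ _ hp hq => rw [map_add]; exact Subalgebra.add_mem _ hp hq
      | mul p q _ _ hp hq => rw [map_mul]; exact Subalgebra.mul_mem _ hp hq
    exact Finset.mem_coe.1 ((mem_supported.1 (h9 f h8)) (Finset.mem_coe.2 hi))

theorem sbt_monomial (x : Fin n) (a : ℂ) (e : Fin n →₀ ℕ) (c : ℂ) :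
    sbt x a (monomial e c) = monomial (e.erase x) (c * a ^ e x) := by
  classical
  have h1 : monomial e c = C c * (monomial (e.erase x) 1 * X x ^ e x) := by
    have h2 : (X x : MvPolynomial (Fin n) ℂ) ^ e x = monomial (Finsupp.single x (e x)) 1 := by
      rw [X_pow_eq_monomial]
    rw [h2, monomial_mul, one_mul, Finsupp.erase_add_single, C_mul_monomial, mul_one]
  have h3 : (monomial (e.erase x) (1 : ℂ) : MvPolynomial (Fin n) ℂ) ∈
      supported ℂ {k : Fin n | k ≠ x} := by
    rw [mem_supported, vars_monomial one_ne_zero]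
    intro i hi
    rw [Finset.mem_coe, Finsupp.support_erase] at hi
    exact (Finset.mem_erase.1 hi).1
  rw [h1, map_mul, sbt_C, map_mul, sbt_supp a h3, map_pow, sbt_self, ← C_pow, mul_comm
    (monomial (e.erase x) (1 : ℂ)), ← mul_assoc, ← C_mul, C_mul_monomial, mul_one]

theorem support_sbt (x : Fin n) (a : ℂ) (f : MvPolynomial (Fin n) ℂ) {b : Fin n →₀ ℕ}
    (hb : b ∈ (sbt x a f).support) : ∃ e ∈ f.support, b = e.erase x := by
  classical
  have h1 : sbt x a f = ∑ e ∈ f.support, monomial (e.erase x) (coeff e f * a ^ e x) := by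
    conv_lhs => rw [f.as_sum]
    rw [map_sum]
    exact Finset.sum_congr rfl fun e _ => sbt_monomial x a e _
  rw [h1] at hb
  obtain ⟨e, he, hb'⟩ := Finset.mem_biUnion.1 (support_sum hb)
  exact ⟨e, he, Finset.mem_singleton.1 (support_monomial_subset hb')⟩

theorem contents_sbt {u : ℕ} (x : Fin n) (a : ℂ) (c₀ : Fin u → ℂ)
    (N : ℕ → Matrix (Fin u) (Fin u) (MvPolynomial (Fin n) ℂ)) (b : ℕ) :
    ∀ j, sbt x a (contents c₀ N b j) = contents c₀ (fun b => (N b).map (sbt x a)) b j := by
  induction b with
  | zero => intro j; simp only [contents, sbt_C]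
  | succ b ih =>
    intro j
    simp only [contents, Matrix.vecMul, dotProduct, map_sum, map_mul, ih, Matrix.map_apply]

theorem prog_sbt {w s D : ℕ} (x : Fin n) (a : ℂ)
    {f : MvPolynomial (Fin n) ℂ} (h : Prog w s D f) : Prog w s D (sbt x a f) := by
  classical
  induction h with
  | @sparse f hf hw' =>
    refine Prog.sparse ?_ ?_
    · refine le_trans (Finset.card_le_card (t := f.support.image fun e => e.erase x) ?_)
        (Finset.card_image_le.trans hf)
      intro b hb
      obtain ⟨e, he, rfl⟩ := support_sbt x a f hb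
      exact Finset.mem_image_of_mem _ he
    · rcases hw' with hw' | hw'
      · left
        refine (Finset.card_le_card fun i hi => ?_).trans hw'
        exact (vars_sbt x a f hi).2
      · right
        intro i
        by_cases hi : i = x
        · subst hi
          by_cases h0 : (sbt i a f).support = ∅
          · rw [h0, Finset.image_empty, Finset.card_empty]
            exact Nat.zero_le _
          · obtain ⟨b, hb⟩ := Finset.nonempty_iff_ne_empty.2 h0
            obtain ⟨e, he, _⟩ := support_sbt i a f hb
            have h1 : 1 ≤ (f.support.image fun a => a i).card :=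
              Finset.card_pos.2 ⟨_, Finset.mem_image_of_mem _ he⟩
            have h2 : (f.support.image fun a => a i).card ≤ w :=
              le_trans (le_of_eq (by congr!)) (hw' i)
            refine le_trans (Finset.card_le_card (t := {0}) ?_)
              (by rw [Finset.card_singleton]; exact h1.trans h2)
            intro y hy
            obtain ⟨b, hb, rfl⟩ := Finset.mem_image.1 hy
            obtain ⟨e, _, rfl⟩ := support_sbt i a f hb
            rw [Finsupp.erase_same]
            exact Finset.mem_singleton_self _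
        · refine le_trans (Finset.card_le_card (t := f.support.image fun a => a i) ?_)
            (le_trans (le_of_eq (by congr!)) (hw' i))
          intro y hy
          obtain ⟨b, hb, rfl⟩ := Finset.mem_image.1 hy
          obtain ⟨e, he, rfl⟩ := support_sbt x a f hb
          rw [Finsupp.erase_ne hi]
          exact Finset.mem_image_of_mem _ he
  | @program D u c₀ N R P hu hocc _ ih =>
    have h1 : sbt x a (aeval (contents c₀ N R) P) =
        aeval (contents c₀ (fun b => (N b).map (sbt x a)) R) P := by
      rw [comp_aeval_apply]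
      congr 2
      funext j
      exact contents_sbt x a c₀ N R j
    rw [h1]
    refine Prog.program c₀ _ R P hu ?_ ?_
    · intro i
      refine le_trans (Finset.card_le_card ?_) (hocc i)
      intro b hb
      rw [Finset.mem_filter] at hb ⊢
      refine ⟨hb.1, ?_⟩
      obtain ⟨y, z, hyz⟩ := hb.2
      exact ⟨y, z, (vars_sbt x a _ hyz).2⟩
    · intro b i j
      exact ih b i j

/-- Substitution of a constant in the leaves of a formula. -/
noncomputable def fsbt (x : Fin n) (a : ℂ) : Formula n → Formula n
  | .leaf g => .leaf (sbt x a g)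
  | .gate c₀ c₁ c₂ c₃ p q => .gate c₀ c₁ c₂ c₃ (fsbt x a p) (fsbt x a q)

theorem fsbt_value (x : Fin n) (a : ℂ) (E : Formula n) :
    (fsbt x a E).value = sbt x a E.value := by
  induction E with
  | leaf g => rfl
  | gate c₀ c₁ c₂ c₃ p q ihp ihq =>
    simp only [fsbt, Formula.value, map_add, map_mul, sbt_C, ihp, ihq]

theorem fsbt_reads (x : Fin n) (a : ℂ) (E : Formula n) (i : Fin n) :
    (fsbt x a E).reads i ≤ E.reads i := by
  classical
  induction E with
  | leaf g =>
    simp only [fsbt, Formula.reads]
    by_cases h : i ∈ (sbt x a g).vars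
    · rw [if_pos h, if_pos (vars_sbt x a g h).2]
    · rw [if_neg h]
      exact Nat.zero_le _
  | gate c₀ c₁ c₂ c₃ p q ihp ihq => exact Nat.add_le_add ihp ihq

theorem fsbt_leaves {w s D : ℕ} (x : Fin n) (a : ℂ) (E : Formula n)
    (h : E.Leaves (Prog w s D)) : (fsbt x a E).Leaves (Prog w s D) := by
  induction E with
  | leaf g => exact prog_sbt x a h
  | gate c₀ c₁ c₂ c₃ p q ihp ihq => exact ⟨ihp h.1, ihq h.2⟩

theorem fsbt_rank {w t : ℕ} (x : Fin n) (a : ℂ) {f : Bool} {S : Finset (Fin n)}
    {E : Formula n} (h : Rank w f t S E) : Rank w f t S (fsbt x a E) := by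
  induction h with
  | leaf t g => exact .leaf t _
  | sum _ _ iha ihb => exact .sum iha ihb
  | left _ _ iha ihb => exact .left iha ihb
  | right _ _ iha ihb => exact .right iha ihb
  | spine _ ih => exact .spine ih
  | product h _ _ iha ihb => exact .product h iha ihb
  | @bag t S B c₀ c₁ c₂ c₃ p q h1 h2 h3 _ _ iha ihb =>
    refine .bag h1 (fun i hp hq => h2 i (hp.trans_le (fsbt_reads x a p i))
      (hq.trans_le (fsbt_reads x a q i))) (fun i hi hpq => h3 i hi (hpq.trans_le ?_)) iha ihb
    exact Nat.add_le_add (fsbt_reads x a p i) (fsbt_reads x a q i)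

theorem comp_sbt {w s D t : ℕ} (x : Fin n) (a : ℂ)
    {g : MvPolynomial (Fin n) ℂ} (h : Composite w s D t g) : Composite w s D t (sbt x a g) := by
  obtain ⟨E, P, hE, rfl⟩ := h
  refine ⟨fun i => fsbt x a (E i), P, fun i => ⟨fsbt_leaves x a _ (hE i).1, fun y =>
    (fsbt_reads x a _ y).trans ((hE i).2.1 y), fsbt_rank x a (hE i).2.2⟩, ?_⟩
  rw [comp_aeval_apply]
  congr 2
  funext i
  exact (fsbt_value x a _).symm

end Pool.Agent.W936.LC
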