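import Mathlib
import Pool.Agent.W936.WB.Base

/-!
Operators on one variable: if the image of a polynomial is hit, the polynomial is hit with one more
seed.
-/

set_option autoImplicit false

namespace Pool.Agent.W936.LC

open MvPolynomial Pool.Agent.H530R2 Pool.Agent.W936.RO Pool.Agent.W936.WB

open Pool.Agent.H626R2.Loc (evG)

section subst

variable {R : Type*} [CommRing R] {n : ℕ}

/-- the value `a` is substituted for the variable `x` -/
noncomputable def sbt (x : Fin n) (a : R) : MvPolynomial (Fin n) R →ₐ[R] MvPolynomial (Fin n) R :=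
  aeval fun i => if i = x then C a else X i

theorem sbt_C (x : Fin n) (a r : R) : sbt x a (C r) = C r := algHom_C _ r

theorem sbt_self (x : Fin n) (a : R) : sbt x a (X x) = C a := by
  rw [sbt, aeval_X, if_pos rfl]

theorem sbt_ne {x i : Fin n} (a : R) (h : i ≠ x) : sbt x a (X i) = X i := by
  rw [sbt, aeval_X, if_neg h]

theorem sbt_supp {x : Fin n} (a : R) {c : MvPolynomial (Fin n) R}
    (hc : c ∈ supported R {k : Fin n | k ≠ x}) : sbt x a c = c := by
  have h' : c ∈ Algebra.adjoin R (X '' {k : Fin n | k ≠ x} : Set (MvPolynomial (Fin n) R)) := hc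
  clear hc
  induction h' using Algebra.adjoin_induction with
  | mem y hy =>
    obtain ⟨i, hi, rfl⟩ := hy
    exact sbt_ne a hi
  | algebraMap r => exact sbt_C x a r
  | add p q _ _ hp hq => rw [map_add, hp, hq]
  | mul p q _ _ hp hq => rw [map_mul, hp, hq]

theorem eval_sbt (x : Fin n) (a : R) (p : Fin n → R) (f : MvPolynomial (Fin n) R) :
    eval p (sbt x a f) = eval (Function.update p x a) f := by
  induction f using MvPolynomial.induction_on with
  | C r => rw [sbt_C, eval_C, eval_C]
  | add f g hf hg => rw [map_add, map_add, map_add, hf, hg]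
  | mul_X f i hf =>
    rw [map_mul, map_mul, map_mul, hf, eval_X]
    congr 1
    by_cases hi : i = x
    · subst hi
      rw [sbt_self, eval_C, Function.update_self]
    · rw [sbt_ne a hi, eval_X, Function.update_of_ne hi]

theorem sbt_map {S : Type*} [CommRing S] (φ : R →+* S) (x : Fin n) (a : R)
    (f : MvPolynomial (Fin n) R) : map φ (sbt x a f) = sbt x (φ a) (map φ f) := by
  induction f using MvPolynomial.induction_on with
  | C r => rw [sbt_C, map_C, sbt_C]
  | add f g hf hg => rw [map_add, map_add, map_add, hf, hg, map_add]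
  | mul_X f i hf =>
    rw [map_mul, map_mul, map_mul, hf, map_mul, map_X]
    congr 1
    by_cases hi : i = x
    · subst hi
      rw [sbt_self, sbt_self, map_C]
    · rw [sbt_ne a hi, sbt_ne _ hi, map_X]

/-- a polynomial that does not change under substitutions for `x` does not depend on `x` -/
theorem eq_sbt {F : Type*} [Field F] [CharZero F] {x : Fin n} {f : MvPolynomial (Fin n) F}
    (h : ∀ a b : F, sbt x a f - sbt x b f = 0) (b : F) : f = sbt x b f := by
  apply MvPolynomial.funext
  intro p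
  have h1 := congrArg (eval p) (sub_eq_zero.1 (h (p x) b))
  rw [← h1, eval_sbt, Function.update_eq_self]

end subst

section van

variable {F : Type} [Field F] {n : ℕ}

theorem sbt_mem {V : VanM F n} (hV : Coef V) {j : ℕ} {Y : Finset (Fin n)} {x : Fin n}
    (hx : x ∈ Y) {f : MvPolynomial (Fin n) F} (hf : f ∈ V.I j Y) (a : F) :
    sbt x a f ∈ V.I j Y := by
  have hD : ∀ s ∈ f.support, s x < f.totalDegree + 1 := by
    intro s hs
    refine Nat.lt_succ_of_le (le_trans ?_ (le_totalDegree hs))
    by_cases h : x ∈ s.support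
    · exact Finset.single_le_sum (f := fun i => s i) (fun _ _ => Nat.zero_le _) h
    · rw [Finsupp.notMem_support_iff.1 h]
      exact Nat.zero_le _
  have h1 := xpart_sum f x _ hD
  have h2 := hf
  rw [h1] at h2
  have h3 := hV j Y x hx _ _ (fun e => xpart_mem f x e) h2
  rw [h1, map_sum]
  refine Ideal.sum_mem _ fun e he => ?_
  rw [map_mul, sbt_supp a (xpart_mem f x e)]
  exact Ideal.mul_mem_right _ _ (h3 e (Finset.mem_range.1 he))

variable [CharZero F]

theorem shVan_anti (σ : Fin n → F) (j : ℕ) (Y : Finset (Fin n)) {f : MvPolynomial (Fin n) F}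
    (hf : f ∈ (shVan (F := F) _ (natInj n) σ).I j Y) :
    f ∈ (shVan (F := F) _ (natInj n) σ).I j ∅ := by
  set γ : Fin n → MvPolynomial (Fin (0 + j) ⊕ Fin (0 + j)) F := fun k =>
    gen (fun i : Fin n => ((i.val : ℕ) : F)) (0 + j) (X k + C (σ k)) with hγ
  have h1 : sb γ (Y ∪ ∅) f = 0 := hf
  show sb γ (∅ ∪ ∅) f = 0
  rw [Finset.union_empty, sb_empty, C_eq_zero]
  rw [Finset.union_empty] at h1
  have h2 : aeval γ (sb γ Y f) = aeval γ f := by
    have key : ∀ p : MvPolynomial (Fin n) F, aeval γ (sb γ Y p) = aeval γ p := by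
      intro p
      induction p using MvPolynomial.induction_on with
      | C r =>
        rw [sb_C, algHom_C, aeval_C]
        rfl
      | add p q hp hq => rw [map_add, map_add, hp, hq, map_add]
      | mul_X p i hp =>
        rw [map_mul, map_mul, hp, map_mul, aeval_X]
        congr 1
        by_cases hi : i ∈ Y
        · rw [sb_X_mem _ hi, aeval_X]
        · rw [sb_X_not_mem _ hi]
          exact aeval_C _ _
    exact key f
  rw [← h2, h1, map_zero]

end van

section local_

variable {n : ℕ}

theorem mem_rVan_iff {β : Fin n → Polynomial ℂ} {T : ℕ} {h : MvPolynomial (Fin n) ℂ} :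
    map (algebraMap ℂ (RatFunc ℂ)) h ∈ (rVan β).I T ∅ ↔ evG ℂ β T h = 0 := by
  refine ⟨fun hm => ?_, mem_rVan⟩
  have h1 := (mem_shVan _ (natInj n) (rpt β) T _).1 hm
  by_contra hc
  have h2 := map_evB (β := β) (T := T) h
  apply (evT_ne_iff n T _).1 ?_ h1
  rw [← h2]
  intro h3
  apply hc
  exact map_injective _ (IsFractionRing.injective (Polynomial ℂ) (RatFunc ℂ))
    (by rw [h3, map_zero])

/-- An operator that is linear over the polynomials without the variable `x`. -/
def Acts (x : Fin n) (Λ : MvPolynomial (Fin n) ℂ → MvPolynomial (Fin n) ℂ) : Prop :=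
  (∀ f g, Λ (f + g) = Λ f + Λ g) ∧ ∀ c f, x ∉ c.vars → Λ (c * f) = c * Λ f

theorem Acts.zero {x : Fin n} {Λ : MvPolynomial (Fin n) ℂ → MvPolynomial (Fin n) ℂ}
    (h : Acts x Λ) : Λ 0 = 0 := by
  have h1 := h.1 0 0
  rw [add_zero] at h1
  exact left_eq_add.1 h1

theorem Acts.sum {x : Fin n} {Λ : MvPolynomial (Fin n) ℂ → MvPolynomial (Fin n) ℂ}
    (h : Acts x Λ) {ι : Type*} (s : Finset ι) (g : ι → MvPolynomial (Fin n) ℂ) :
    Λ (∑ i ∈ s, g i) = ∑ i ∈ s, Λ (g i) := by
  classical
  induction s using Finset.induction_on with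
  | empty => rw [Finset.sum_empty, Finset.sum_empty, h.zero]
  | insert i s hi ih => rw [Finset.sum_insert hi, Finset.sum_insert hi, h.1, ih]

/-- one more seed makes a variable free, so operators on one variable can be applied -/
theorem step_mem {β : Fin n → Polynomial ℂ} {M : ℕ} {f : MvPolynomial (Fin n) ℂ}
    (h : evG ℂ β (M + 1) f = 0) {x : Fin n}
    {Λ : MvPolynomial (Fin n) ℂ → MvPolynomial (Fin n) ℂ} (hΛ : Acts x Λ) :
    evG ℂ β M (Λ f) = 0 := by
  classical
  set V := rVan β with hV
  have hcoef : Coef V := shVan_coef _ (natInj n) (rpt β)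
  have h1 : map (algebraMap ℂ (RatFunc ℂ)) f ∈ V.I M (insert x ∅) :=
    V.free M ∅ x _ (mem_rVan h)
  have hD : ∀ s ∈ f.support, s x < f.totalDegree + 1 := by
    intro s hs
    refine Nat.lt_succ_of_le (le_trans ?_ (le_totalDegree hs))
    by_cases h : x ∈ s.support
    · exact Finset.single_le_sum (f := fun i => s i) (fun _ _ => Nat.zero_le _) h
    · rw [Finsupp.notMem_support_iff.1 h]
      exact Nat.zero_le _
  have h2 := xpart_sum f x _ hD
  have hnot : ∀ e, x ∉ (xpart f x e).vars := fun e hx =>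
    (mem_supported.1 (xpart_mem f x e)) (Finset.mem_coe.2 hx) rfl
  have h3 : ∀ e < f.totalDegree + 1,
      map (algebraMap ℂ (RatFunc ℂ)) (xpart f x e) ∈ V.I M (insert x ∅) := by
    refine hcoef M (insert x ∅) x (Finset.mem_insert_self _ _) _
      (fun e => map (algebraMap ℂ (RatFunc ℂ)) (xpart f x e)) (fun e => ?_) ?_
    · rw [mem_supported]
      exact subset_trans (Finset.coe_subset.2 (vars_map _ _)) (mem_supported.1 (xpart_mem f x e))
    · rw [h2, map_sum] at h1
      simpa only [map_mul, map_pow, map_X] using h1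
  have h4 : ∀ e < f.totalDegree + 1, evG ℂ β M (xpart f x e) = 0 := fun e he =>
    mem_rVan_iff.1 (shVan_anti (rpt β) M (insert x ∅) (h3 e he))
  rw [h2, hΛ.sum, map_sum]
  refine Finset.sum_eq_zero fun e he => ?_
  rw [hΛ.2 _ _ (hnot e), map_mul, h4 e (Finset.mem_range.1 he), zero_mul]

theorem evG_mono {β : Fin n → Polynomial ℂ} {a b : ℕ} (hab : a ≤ b)
    {g : MvPolynomial (Fin n) ℂ} (hg : evG ℂ β a g ≠ 0) : evG ℂ β b g ≠ 0 := fun hc =>
  hg (mem_rVan_iff.1 ((rVan β).mono hab ∅ (mem_rVan_iff.2 hc)))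

theorem acts_sbt (x : Fin n) (a : ℂ) : Acts x (fun f => sbt x a f) := by
  refine ⟨fun f g => map_add _ f g, fun c f hc => ?_⟩
  beta_reduce
  rw [map_mul, sbt_supp a]
  rw [mem_supported]
  intro i hi
  show i ≠ x
  rintro rfl
  exact hc (Finset.mem_coe.1 hi)

theorem acts_sub {x : Fin n} {Λ Λ' : MvPolynomial (Fin n) ℂ → MvPolynomial (Fin n) ℂ}
    (h : Acts x Λ) (h' : Acts x Λ') : Acts x (fun f => Λ f - Λ' f) := by
  refine ⟨fun f g => ?_, fun c f hc => ?_⟩
  · beta_reduce
    rw [h.1, h'.1]
    ring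
  · beta_reduce
    rw [h.2 c f hc, h'.2 c f hc, mul_sub]

theorem acts_zero (x : Fin n) : Acts x (fun _ => 0) :=
  ⟨fun _ _ => (add_zero _).symm, fun c _ _ => (mul_zero c).symm⟩

/-- some value of a variable does not kill a nonzero polynomial -/
theorem exists_sbt {f : MvPolynomial (Fin n) ℂ} (hf : f ≠ 0) (x : Fin n) :
    ∃ a : ℂ, sbt x a f ≠ 0 := by
  by_contra hcon
  push Not at hcon
  apply hf
  apply MvPolynomial.funext
  intro p
  have h1 := congrArg (eval p) (hcon (p x))
  rwa [eval_sbt, Function.update_eq_self] at h1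

end local_

end Pool.Agent.W936.LC
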